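import Pool.Agent.H44.EHN.Stmts

set_option autoImplicit false

namespace EHN

theorem W2_thm (h1 : W1Stmt) : W2Stmt := by
  intro n p hn h3 hp hd hne hE
  have hmod : p ≡ 1 [MOD n] := by
    by_contra h
    exact hE ⟨p, hp, hd, h⟩
  have hgt : n < p := by
    by_contra h
    have h2 : p ∣ n.factorial := (hp.dvd_factorial).2 (by omega)
    have h4 : p ∣ 1 := (Nat.dvd_add_right h2).1 hd
    exact hp.one_lt.ne' (Nat.dvd_one.1 h4)
  have hdv : n ∣ p - 1 := (Nat.modEq_iff_dvd' hp.one_le).1 hmod.symm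
  obtain ⟨k, hk⟩ := hdv
  have hp2 : Odd p := hp.odd_of_ne_two (by omega)
  have hk3 : 3 ≤ k := by
    by_contra h
    have hk' : k = 0 ∨ k = 1 ∨ k = 2 := by omega
    rcases hk' with h0 | h0 | h0
    · rw [h0, mul_zero] at hk
      omega
    · rw [h0, mul_one] at hk
      obtain ⟨a, ha⟩ := hn
      obtain ⟨b, hb⟩ := hp2
      omega
    · rw [h0] at hk
      omega
  obtain ⟨j, rfl⟩ : ∃ j, k = j + 1 := ⟨k - 1, by omega⟩
  have hj : 2 ≤ j := by omega
  have hk2 : p = n + n * j + 1 := by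
    have : n * (j + 1) = n * j + n := by ring
    omega
  have hle : p ≤ n.factorial + 1 := Nat.le_of_dvd (Nat.succ_pos _) hd
  refine ⟨n * j, hk2.symm, dvd_mul_right n j, ?_, by omega, ?_, ?_⟩
  · calc 2 * n = n * 2 := by ring
      _ ≤ n * j := Nat.mul_le_mul_left n hj
  · obtain ⟨a, ha⟩ := hn
    obtain ⟨b, hb⟩ := hp2
    refine ⟨b - a - 1, ?_⟩
    omega
  · refine ⟨p, hp, h1 n (n * j) p hp hk2.symm hn hd, ?_⟩
    intro h
    have h5 : n * j ∣ p - 1 := (Nat.modEq_iff_dvd' hp.one_le).1 h.symm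
    have h6 : p - 1 = n * j + n := by omega
    rw [h6] at h5
    have h7 : n * j ∣ n := (Nat.dvd_add_right (dvd_refl _)).1 h5
    have h8 : n * j ≤ n := Nat.le_of_dvd (by omega) h7
    have h9 : n * 2 ≤ n * j := Nat.mul_le_mul_left n hj
    omega

end EHN
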